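import Pool.Agent.X310.Odd

/-!
# Surfaces with many algebraic classes: definitions
-/

set_option autoImplicit false

open CategoryTheory AlgebraicGeometry

universe u v

namespace Pool.Agent.N190.Amp

open Pool.Agent.H914 Pool.Agent.W534 VarClass Obj WeilCohomology

variable {k : Type u} [Field k] {𝒱 : VarClass k} {ops : CycleOps 𝒱}

/-- The cohomology of `S` is algebraic: it vanishes in the odd degrees, and `H^{2p}(S)` is the
`K`-span of the classes of the cycles of codimension `p`. -/
def AllAlgebraic (W : WeilCohomology.{u, v} ops) (S : 𝒱.Obj) : Prop :=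
  ∀ p : ℕ, W.gr S (2 * p) ≤ spanCycles W S p ∧ W.gr S (2 * p + 1) = ⊥

/-- There are surfaces with algebraic cohomology, which satisfy the hard Lefschetz theorem for
some divisor, and whose second Betti number is as large as we please (for example the blow-ups of
the projective plane in many points). -/
def HasManySurfaces (W : WeilCohomology.{u, v} ops) : Prop :=
  ∀ r : ℕ, ∃ (S : 𝒱.Obj) (G : S.Cycles), S.dim = 2 ∧ S.IsCyc 1 G ∧ HardLefschetz W S G ∧
    AllAlgebraic W S ∧ r ≤ cycleRank W S 1

/-- The Betti number `dim H^i(V)`. -/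
noncomputable def betti (W : WeilCohomology.{u, v} ops) (V : 𝒱.Obj) (i : ℕ) : ℕ :=
  Module.finrank W.K (W.gr V i)

/-- The total Betti number `dim H(V)`. -/
noncomputable def totalBetti (W : WeilCohomology.{u, v} ops) (V : 𝒱.Obj) : ℕ :=
  Module.finrank W.K (W.H V)

/-- The difference of the ranks `r(V, q) - r(V, p)`, where `r(V, p)` is the dimension of the
`K`-span of the classes of the cycles of codimension `p`. -/
noncomputable def rankDiff (W : WeilCohomology.{u, v} ops) (V : 𝒱.Obj) (p q : ℕ) : ℤ :=
  (cycleRank W V q : ℤ) - cycleRank W V p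

/-- For the varieties `V` of dimension `n` the difference `r(V, q) - r(V, p)` is at most a
constant times the power `b_2(V)^c` of the second Betti number. -/
def PolyGap (W : WeilCohomology.{u, v} ops) (n p q c : ℕ) : Prop :=
  ∃ M : ℕ, ∀ V : 𝒱.Obj, V.dim = n → rankDiff W V p q ≤ M * (betti W V 2 : ℤ) ^ c

/-- For the varieties `V` of dimension `n` the difference `r(V, q) - r(V, p)` is small compared
with the total Betti number `b(V)`: for every `N` there is a constant `M` with
`N (r(V, q) - r(V, p)) ≤ b(V) + M` for all `V` of dimension `n`. -/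
def SmallGap (W : WeilCohomology.{u, v} ops) (n p q : ℕ) : Prop :=
  ∀ N : ℕ, ∃ M : ℕ, ∀ V : 𝒱.Obj, V.dim = n → N * rankDiff W V p q ≤ totalBetti W V + M

end Pool.Agent.N190.Amp
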