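import Pool.Agent.X310.Mom5
import Pool.Agent.N190.Amp.Defs

/-!
# The ranks of the groups of cycles on the product with a variety with algebraic cohomology
-/

set_option autoImplicit false

open CategoryTheory AlgebraicGeometry Finset

universe u v

namespace Pool.Agent.N190.Amp

open Pool.Agent.H914 Pool.Agent.H447 Pool.Agent.W534 Pool.Agent.W537 Pool.Agent.TH720.LB VarClass
  Obj WeilCohomology Pool.Agent.X310.Gap Pool.Agent.X310 Pool.Agent.X310.Mom

variable {k : Type u} [Field k] {𝒱 : VarClass k} {ops : CycleOps 𝒱}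
  {W : WeilCohomology.{u, v} ops} {S X V Y : 𝒱.Obj} {D : X.Cycles} {E : V.Cycles} {G : S.Cycles}

/-- the intersection form -/
noncomputable def frm (W : WeilCohomology.{u, v} ops) (S : 𝒱.Obj) :
    W.H S →ₗ[W.K] W.H S →ₗ[W.K] W.K :=
  (LinearMap.mul W.K (W.H S)).compr₂ (W.tr S)

lemma frm_apply (a b : W.H S) : frm W S a b = W.tr S (a * b) := rfl

lemma nondeg_alg (hS : AllAlgebraic W S) {p : ℕ} (hp : p ≤ S.dim) {a : W.H S}
    (ha : a ∈ spanCycles W S p)
    (h : ∀ b ∈ spanCycles W S (S.dim - p : ℕ), W.tr S (a * b) = 0) : a = 0 := by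
  apply W.nondeg
  intro b
  refine gr_induction (W.isInternal S) (p := fun b => W.tr S (a * b) = 0) ?_ ?_ b
  · intro i b hb
    by_cases hi : i = 2 * (S.dim - p)
    · subst hi
      exact h b ((hS _).1 hb)
    · exact W.tr_eq_zero (W.mul_mem (H914.span_gr ha) hb) (by omega)
  · intro b c hb hc
    rw [mul_add, map_add, hb, hc, add_zero]

/-- dual families -/
lemma dual_fam (hS : AllAlgebraic W S) {p : ℕ} (hp : p ≤ S.dim) :
    ∃ c c' : Fin (cycleRank W S p) → W.H S, (∀ i, c i ∈ spanCycles W S p) ∧
      (∀ i, c' i ∈ spanCycles W S ((S.dim : ℤ) - p)) ∧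
      (∀ i j, W.tr S (c' i * c j) = if i = j then 1 else 0) ∧
      (∀ u ∈ spanCycles W S p, u = ∑ i, W.tr S (c' i * u) • c i) ∧
      cycleRank W S p = cycleRank W S ((S.dim : ℤ) - p) := by
  have hcast : ((S.dim - p : ℕ) : ℤ) = (S.dim : ℤ) - p := by rw [Nat.cast_sub hp]
  obtain ⟨N, c, c', h1, h2, h3, h4, h5⟩ := exists_dual_families (frm W S) (spanCycles W S p)
    (spanCycles W S (S.dim - p : ℕ)) (fun u hu h => nondeg_alg hS hp hu fun b hb => h b hb)
    (fun u hu h => nondeg_alg hS (p := S.dim - p) (by omega) hu fun b hb => by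
      rw [show S.dim - (S.dim - p) = p by omega] at hb
      rw [span_even hu]
      exact h b hb)
  rw [hcast] at h2 h5
  have li : LinearIndependent W.K c := by
    rw [Fintype.linearIndependent_iff]
    intro g hg i
    have := congrArg (fun x => frm W S x (c' i)) hg
    simpa [h3, LinearMap.sum_apply] using this
  have li' : LinearIndependent W.K c' := by
    rw [Fintype.linearIndependent_iff]
    intro g hg i
    have := congrArg (fun x => frm W S (c i) x) hg
    simpa [h3] using this
  have sp : Submodule.span W.K (Set.range c) = spanCycles W S p := by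
    apply le_antisymm
    · rw [Submodule.span_le]
      rintro _ ⟨i, rfl⟩
      exact h1 i
    · intro u hu
      rw [h4 u hu]
      exact Submodule.sum_mem _ fun i _ => Submodule.smul_mem _ _
        (Submodule.subset_span ⟨i, rfl⟩)
  have sp' : Submodule.span W.K (Set.range c') = spanCycles W S ((S.dim : ℤ) - p) := by
    apply le_antisymm
    · rw [Submodule.span_le]
      rintro _ ⟨i, rfl⟩
      exact h2 i
    · intro u hu
      rw [h5 u hu]
      exact Submodule.sum_mem _ fun i _ => Submodule.smul_mem _ _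
        (Submodule.subset_span ⟨i, rfl⟩)
  have n1 : N = cycleRank W S p := by
    rw [cycleRank, ← sp, finrank_span_eq_card li, Fintype.card_fin]
  have n2 : N = cycleRank W S ((S.dim : ℤ) - p) := by
    rw [cycleRank, ← sp', finrank_span_eq_card li', Fintype.card_fin]
  subst n1
  refine ⟨c, c', h1, h2, ?_, ?_, n2⟩
  · intro i j
    rw [span_even (h2 i), ← frm_apply, h3]
    simp only [eq_comm]
  · intro u hu
    conv_lhs => rw [h4 u hu]
    exact Finset.sum_congr rfl fun i _ => by rw [frm_apply, span_even (h2 i)]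

lemma revSum (n : ℕ) (f : ℕ → ℕ) (hf : ∀ p ≤ n, f p = f (n - p)) :
    ∑ p : Fin (n + 1), (f p : ℤ) * (2 * ((p : ℕ) : ℤ) - n) = 0 := by
  have h1 : ∑ j : Fin (n + 1), (f j : ℤ) * (2 * ((j : ℕ) : ℤ) - n) =
      ∑ j : Fin (n + 1), (f (Fin.revPerm j : Fin (n + 1)) : ℤ) *
        (2 * (((Fin.revPerm j : Fin (n + 1)) : ℕ) : ℤ) - n) :=
    (Equiv.sum_comp Fin.revPerm fun j : Fin (n + 1) =>
      (f j : ℤ) * (2 * ((j : ℕ) : ℤ) - n)).symm
  have h2 : ∑ j : Fin (n + 1), (f (Fin.revPerm j : Fin (n + 1)) : ℤ) *
        (2 * (((Fin.revPerm j : Fin (n + 1)) : ℕ) : ℤ) - n) =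
      -∑ j : Fin (n + 1), (f j : ℤ) * (2 * ((j : ℕ) : ℤ) - n) := by
    rw [← Finset.sum_neg_distrib]
    refine Finset.sum_congr rfl fun j _ => ?_
    have := j.2
    rw [Fin.revPerm_apply, Fin.val_rev, show n + 1 - ((j : ℕ) + 1) = n - (j : ℕ) by omega,
      ← hf j (by omega)]
    rw [Nat.cast_sub (by omega)]
    ring
  omega

/-- **The block of all classes of a variety with algebraic cohomology.** -/
lemma exists_block (hS : AllAlgebraic W S) (G : S.Cycles) :
    ∃ B : Block W S G (Σ p : Fin (S.dim + 1), Fin (cycleRank W S ((p : ℕ) : ℤ))),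
      (∀ j, B.q j = ((j.1 : ℕ) : ℤ)) ∧ ∀ x, B.e x = x := by
  choose c c' h1 h2 h3 h4 h5 using fun p : Fin (S.dim + 1) =>
    dual_fam hS (p := (p : ℕ)) (by have := p.2; omega)
  have hid : ∀ x : W.H S, ∑ j : (Σ p : Fin (S.dim + 1), Fin (cycleRank W S ((p : ℕ) : ℤ))),
      W.tr S (c' j.1 j.2 * x) • c j.1 j.2 = x := by
    intro x
    refine gr_induction (W.isInternal S) (p := fun x =>
      ∑ j : (Σ p : Fin (S.dim + 1), Fin (cycleRank W S ((p : ℕ) : ℤ))),
      W.tr S (c' j.1 j.2 * x) • c j.1 j.2 = x) ?_ ?_ x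
    · intro i x hx
      rcases Nat.even_or_odd' i with ⟨p, rfl | rfl⟩
      · by_cases hp : p ≤ S.dim
        · have hx' := (hS p).1 hx
          rw [Fintype.sum_sigma, Finset.sum_eq_single (⟨p, by omega⟩ : Fin (S.dim + 1))]
          · exact (h4 ⟨p, by omega⟩ x hx').symm
          · intro q _ hq
            refine Finset.sum_eq_zero fun i _ => ?_
            rw [tr_span (h2 q i) hx' ?_, zero_smul]
            intro h
            apply hq
            apply Fin.ext
            have : ((q : ℕ) : ℤ) = p := by linarith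
            exact_mod_cast this
          · exact fun h => absurd (Finset.mem_univ _) h
        · rw [W.gr_eq_bot S _ (by omega), Submodule.mem_bot] at hx
          subst hx
          simp
      · rw [(hS p).2, Submodule.mem_bot] at hx
        subst hx
        simp
    · intro a b ha hb
      conv_rhs => rw [← ha, ← hb]
      rw [← Finset.sum_add_distrib]
      exact Finset.sum_congr rfl fun j _ => by rw [mul_add, map_add, add_smul]
  refine ⟨{
    q := fun j => ((j.1 : ℕ) : ℤ)
    al := fun j => c j.1 j.2
    be := fun j => c' j.1 j.2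
    hal := fun j => h1 j.1 j.2
    hbe := fun j => h2 j.1 j.2
    dual := ?_
    comm := fun x => by rw [hid, hid]
    sym := ?_ }, fun j => rfl, fun x => ?_⟩
  · rintro ⟨p, i⟩ ⟨q, j⟩
    by_cases hpq : p = q
    · subst hpq
      rw [h3]
      simp
    · rw [tr_span (h2 p i) (h1 q j) ?_, if_neg]
      · intro h
        exact hpq (congrArg Sigma.fst h)
      · intro h
        apply hpq
        apply Fin.ext
        have : ((p : ℕ) : ℤ) = ((q : ℕ) : ℤ) := by linarith
        exact_mod_cast this
  · rw [Fintype.sum_sigma]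
    simp only [Finset.sum_const, Finset.card_univ, Fintype.card_fin, nsmul_eq_mul]
    refine revSum S.dim (fun p => cycleRank W S (p : ℤ)) fun p hp => ?_
    have := h5 ⟨p, by omega⟩
    simp only at this
    rw [this, Nat.cast_sub hp]
  · rw [Block.e_apply]
    exact hid x

/-- **The ranks of the groups of cycles on the product.** -/
lemma rank_kunneth (hS : AllAlgebraic W S) (V : 𝒱.Obj) (d : ℤ) :
    cycleRank W (S.prod V) (S.dim + d) =
      ∑ p ∈ Finset.range (S.dim + 1), cycleRank W S (p : ℤ) * cycleRank W V (p + d) := by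
  obtain ⟨B, hq, he⟩ := exists_block hS (0 : S.Cycles)
  have h1 := B.finrank_left (V := V) (π := 1) d
  have e1 : B.e = 1 := LinearMap.ext he
  have e2 : LinearMap.compRight W.K (1 : Module.End W.K (W.H V)) ∘ₗ
      LinearMap.lcomp W.K (W.H V) B.e = 1 := by
    rw [e1]
    apply LinearMap.ext
    intro φ
    rfl
  rw [e2, show (1 : Module.End W.K (W.H S →ₗ[W.K] W.H V)) = LinearMap.id from rfl,
    Submodule.map_id, finrank_KOp] at h1
  rw [cycleRank, h1, Fintype.sum_sigma, Finset.sum_range]
  refine Finset.sum_congr rfl fun p _ => ?_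
  refine (Finset.sum_congr rfl (fun i _ => ?_ :
    ∀ i ∈ Finset.univ, _ = cycleRank W V (((p : ℕ) : ℤ) + d))).trans ?_
  · rw [hq, show (1 : Module.End W.K (W.H V)) = LinearMap.id from rfl, Submodule.map_id]
    rfl
  · rw [Finset.sum_const, Finset.card_univ, Fintype.card_fin, smul_eq_mul]

/-- the total Betti number of a variety with algebraic cohomology -/
lemma total_alg (hS : AllAlgebraic W S) :
    totalBetti W S = ∑ p ∈ Finset.range (S.dim + 1), cycleRank W S (p : ℤ) := by
  obtain ⟨B, hq, he⟩ := exists_block hS (0 : S.Cycles)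
  have li : LinearIndependent W.K B.al := by
    rw [Fintype.linearIndependent_iff]
    intro g hg i
    have := congrArg (fun x => W.tr S (B.be i * x)) hg
    simpa [B.dual, Finset.mul_sum] using this
  have sp : Submodule.span W.K (Set.range B.al) = ⊤ := by
    rw [eq_top_iff]
    intro x _
    rw [← he x, B.e_apply]
    exact Submodule.sum_mem _ fun i _ => Submodule.smul_mem _ _
      (Submodule.subset_span ⟨i, rfl⟩)
  have h1 := finrank_span_eq_card li
  rw [sp, finrank_top] at h1
  rw [totalBetti, h1, Fintype.card_sigma, Finset.sum_range]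
  simp

/-- the total Betti number of a product -/
lemma total_prod (X Y : 𝒱.Obj) :
    totalBetti W (X.prod Y) = totalBetti W X * totalBetti W Y := by
  have e1 := (LinearEquiv.ofBijective _ (W.kunneth X Y)).finrank_eq
  rw [totalBetti, ← e1, Module.finrank_tensorProduct]
  rfl

/-- the second Betti number of a product -/
lemma betti_two_prod (hS : W.gr S 1 = ⊥) (V : 𝒱.Obj) :
    betti W (S.prod V) 2 ≤ betti W S 2 + betti W V 2 := by
  set N : Submodule W.K (W.H (S.prod V)) :=
    (W.gr S 2).map (W.map (fst S V)).toLinearMap ⊔ (W.gr V 2).map (W.map (snd S V)).toLinearMap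
    with hN
  set π : Module.End W.K (W.H (S.prod V)) :=
    scal (W.isInternal (S.prod V)) (fun i => if i = 2 then 1 else 0) with hπ
  have key : ∀ c, π c ∈ N := by
    intro c
    refine W.kunneth_induction (p := fun c => π c ∈ N) ?_ ?_ c
    · intro a b ha hb
      rw [map_add]
      exact Submodule.add_mem _ ha hb
    · intro i j a ha b hb
      have hab : W.map (fst S V) a * W.map (snd S V) b ∈ W.gr (S.prod V) (i + j) :=
        W.mul_mem (W.map_mem _ ha) (W.map_mem _ hb)
      rw [hπ, scal_apply _ _ hab]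
      by_cases hij : i + j = 2
      · rw [if_pos hij, one_smul]
        have hi : i = 0 ∨ i = 1 ∨ i = 2 := by omega
        rcases hi with rfl | rfl | rfl
        · obtain rfl : j = 2 := by omega
          rw [W.gr_zero, Submodule.mem_span_singleton] at ha
          obtain ⟨c, rfl⟩ := ha
          rw [map_smul, map_one, smul_mul_assoc, one_mul]
          exact Submodule.smul_mem _ _ (Submodule.mem_sup_right ⟨b, hb, rfl⟩)
        · rw [hS, Submodule.mem_bot] at ha
          rw [ha, map_zero, zero_mul]
          exact Submodule.zero_mem _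
        · obtain rfl : j = 0 := by omega
          rw [W.gr_zero, Submodule.mem_span_singleton] at hb
          obtain ⟨c, rfl⟩ := hb
          rw [map_smul, map_one, mul_smul_comm, mul_one]
          exact Submodule.smul_mem _ _ (Submodule.mem_sup_left ⟨a, ha, rfl⟩)
      · rw [if_neg hij, zero_smul]
        exact Submodule.zero_mem _
  have hle : W.gr (S.prod V) 2 ≤ N := by
    intro c hc
    have h1 := key c
    rwa [hπ, scal_apply _ _ hc, if_pos rfl, one_smul] at h1
  have h1 := Submodule.finrank_mono hle
  have h2 := Submodule.finrank_add_le_finrank_add_finrank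
    ((W.gr S 2).map (W.map (fst S V)).toLinearMap) ((W.gr V 2).map (W.map (snd S V)).toLinearMap)
  have h3 := Submodule.finrank_map_le (W.map (fst S V)).toLinearMap (W.gr S 2)
  have h4 := Submodule.finrank_map_le (W.map (snd S V)).toLinearMap (W.gr V 2)
  rw [← hN] at h2
  rw [betti, betti, betti]
  omega

end Pool.Agent.N190.Amp
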