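import Pool.Agent.N190.Amp.Alg

/-!
# Amplification of the difference of the ranks next to the middle
-/

set_option autoImplicit false

open CategoryTheory AlgebraicGeometry Finset

universe u v

namespace Pool.Agent.N190.Amp

open Pool.Agent.H914 Pool.Agent.H447 Pool.Agent.W534 Pool.Agent.W537 Pool.Agent.TH720.LB VarClass
  Obj WeilCohomology Pool.Agent.X310.Gap Pool.Agent.X310 Pool.Agent.X310.Mom

variable {k : Type u} [Field k] {𝒱 : VarClass k} {ops : CycleOps 𝒱}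
  {W : WeilCohomology.{u, v} ops} {S X V Y P : 𝒱.Obj} {D : X.Cycles} {E : V.Cycles} {G : S.Cycles}
  {h : P.Cycles}

lemma one_ne_of_rank {p : ℤ} (hr : 1 ≤ cycleRank W S p) : (1 : W.H S) ≠ 0 := by
  intro h1
  have h2 : ∀ x : W.H S, x = 0 := fun x => by rw [← mul_one x, h1, mul_zero]
  have h3 : spanCycles W S p = ⊥ := by
    rw [eq_bot_iff]
    intro x _
    rw [h2 x]
    exact Submodule.zero_mem _
  rw [cycleRank, h3, finrank_bot] at hr
  omega

lemma span_eq (hS : AllAlgebraic W S) (p : ℕ) : spanCycles W S p = W.gr S (2 * p) :=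
  le_antisymm (fun _ hx => H914.span_gr hx) (hS p).1

lemma rank_zero (hS : AllAlgebraic W S) (h1 : (1 : W.H S) ≠ 0) :
    cycleRank W S ((0 : ℕ) : ℤ) = 1 := by
  rw [cycleRank, span_eq hS, mul_zero, W.gr_zero, finrank_span_singleton h1]

lemma rank_top (hS : AllAlgebraic W S) (h1 : (1 : W.H S) ≠ 0) : cycleRank W S (S.dim : ℤ) = 1 := by
  obtain ⟨-, -, -, -, -, -, h2⟩ := dual_fam hS (p := 0) (Nat.zero_le _)
  rw [rank_zero hS h1, Nat.cast_zero, sub_zero] at h2
  exact h2.symm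

/-- the ranks of the product with a surface with algebraic cohomology -/
lemma rk_surf (hS : AllAlgebraic W S) (hd : S.dim = 2) (h1 : (1 : W.H S) ≠ 0) (V : 𝒱.Obj)
    (p : ℤ) : rk W (S.prod V) (p + 1) =
      rk W V (p - 1) + cycleRank W S 1 * rk W V p + rk W V (p + 1) := by
  have h2 := rank_kunneth hS V (p - 1)
  rw [hd, Finset.sum_range_succ, Finset.sum_range_succ, Finset.sum_range_one, rank_zero hS h1,
    one_mul] at h2
  have h3 : cycleRank W S ((2 : ℕ) : ℤ) = 1 := by rw [← hd]; exact rank_top hS h1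
  rw [h3, one_mul] at h2
  rw [show ((2 : ℕ) : ℤ) + (p - 1) = p + 1 by push_cast; ring,
    show ((0 : ℕ) : ℤ) + (p - 1) = p - 1 by push_cast; ring,
    show ((1 : ℕ) : ℤ) + (p - 1) = p by push_cast; ring] at h2
  simp only [rk]
  rw [h2]
  push_cast
  rfl

lemma total_surf (hS : AllAlgebraic W S) (hd : S.dim = 2) (h1 : (1 : W.H S) ≠ 0) :
    totalBetti W S = cycleRank W S 1 + 2 := by
  have h3 : cycleRank W S ((2 : ℕ) : ℤ) = 1 := by rw [← hd]; exact rank_top hS h1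
  rw [total_alg hS, hd, Finset.sum_range_succ, Finset.sum_range_succ, Finset.sum_range_one,
    rank_zero hS h1, h3, Nat.cast_one]
  ring

lemma betti_surf (hS : AllAlgebraic W S) : betti W S 2 = cycleRank W S 1 := by
  have := span_eq hS 1
  rw [mul_one] at this
  rw [betti, ← this, cycleRank, Nat.cast_one]

/-- the odd dimensions -/
lemma odd_step (hS : AllAlgebraic W S) (hd : S.dim = 2) (h1 : (1 : W.H S) ≠ 0)
    (hE : V.IsCyc 1 E) (hV : HardLefschetz W V E) {m : ℕ} (hm : V.dim = 2 * m + 1) :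
    ((cycleRank W S 1 : ℤ) - 1) * rankDiff W V m (m + 1) ≤
      rankDiff W (S.prod V) (m + 1) (m + 1 + 1) := by
  have e1 := rk_surf hS hd h1 V m
  have e2 := rk_surf hS hd h1 V (m + 1)
  have e3 := rk_le hE hV (p := (m : ℤ) - 1) (by omega)
  rw [show (V.dim : ℤ) - (m - 1) = m + 1 + 1 by omega] at e3
  rw [show (m : ℤ) + 1 - 1 = m by ring] at e2
  simp only [rankDiff]
  simp only [rk] at e1 e2 e3
  push_cast
  rw [e1, e2]
  linarith

/-- the even dimensions -/
lemma even_step (hS : AllAlgebraic W S) (hd : S.dim = 2) (h1 : (1 : W.H S) ≠ 0)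
    (hE : V.IsCyc 1 E) (hV : HardLefschetz W V E) {m : ℕ} (hm : V.dim = 2 * m + 2) :
    (cycleRank W S 1 : ℤ) * rankDiff W V m (m + 2) ≤
      rankDiff W (S.prod V) (m + 1) (m + 1 + 2) := by
  have e1 := rk_surf hS hd h1 V m
  have e2 := rk_surf hS hd h1 V (m + 2)
  have e3 := rk_le hE hV (p := (m : ℤ) - 1) (by omega)
  rw [show (V.dim : ℤ) - (m - 1) = m + 2 + 1 by omega] at e3
  rw [show (m : ℤ) + 2 - 1 = m + 1 by ring] at e2
  simp only [rankDiff]
  simp only [rk] at e1 e2 e3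
  push_cast
  rw [e1, show (m : ℤ) + 1 + 2 = m + 2 + 1 by ring, e2]
  linarith

lemma surf_dim (hd : S.dim = 2) (V : 𝒱.Obj) (c : ℕ) : (cmul S V c).dim = V.dim + 2 * c := by
  induction c with
  | zero => rfl
  | succ c ih => rw [cmul, dim_prod, ih, hd]; ring

lemma odd_pow (hS : AllAlgebraic W S) (hd : S.dim = 2) (hρ : 1 ≤ cycleRank W S 1)
    (hG : S.IsCyc 1 G) (hHS : HardLefschetz W S G) (hE : V.IsCyc 1 E) (hV : HardLefschetz W V E)
    {m : ℕ} (hm : V.dim = 2 * m + 1) (c : ℕ) :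
    ((cycleRank W S 1 : ℤ) - 1) ^ c * rankDiff W V m (m + 1) ≤
      rankDiff W (cmul S V c) (m + c) (m + c + 1) := by
  have hρ' : (0 : ℤ) ≤ (cycleRank W S 1 : ℤ) - 1 := by
    have : (1 : ℤ) ≤ cycleRank W S 1 := by exact_mod_cast hρ
    omega
  induction c with
  | zero => rw [pow_zero, one_mul]; exact le_rfl
  | succ c ih =>
    have h1 := odd_step hS hd (one_ne_of_rank hρ) (cmulDiv_cyc (ops := ops) hG hE c)
      (cmul_hard hG hE hHS hV c) (m := m + c) (by rw [surf_dim hd, hm]; ring)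
    calc ((cycleRank W S 1 : ℤ) - 1) ^ (c + 1) * rankDiff W V m (m + 1) =
          ((cycleRank W S 1 : ℤ) - 1) *
            (((cycleRank W S 1 : ℤ) - 1) ^ c * rankDiff W V m (m + 1)) := by ring
      _ ≤ ((cycleRank W S 1 : ℤ) - 1) * rankDiff W (cmul S V c) (m + c) (m + c + 1) :=
          mul_le_mul_of_nonneg_left ih hρ'
      _ ≤ _ := h1

lemma even_pow (hS : AllAlgebraic W S) (hd : S.dim = 2) (hρ : 1 ≤ cycleRank W S 1)
    (hG : S.IsCyc 1 G) (hHS : HardLefschetz W S G) (hE : V.IsCyc 1 E) (hV : HardLefschetz W V E)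
    {m : ℕ} (hm : V.dim = 2 * m + 2) (c : ℕ) :
    (cycleRank W S 1 : ℤ) ^ c * rankDiff W V m (m + 2) ≤
      rankDiff W (cmul S V c) (m + c) (m + c + 2) := by
  have hρ' : (0 : ℤ) ≤ (cycleRank W S 1 : ℤ) := Int.natCast_nonneg _
  induction c with
  | zero => rw [pow_zero, one_mul]; exact le_rfl
  | succ c ih =>
    have h1 := even_step hS hd (one_ne_of_rank hρ) (cmulDiv_cyc (ops := ops) hG hE c)
      (cmul_hard hG hE hHS hV c) (m := m + c) (by rw [surf_dim hd, hm]; ring)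
    calc (cycleRank W S 1 : ℤ) ^ (c + 1) * rankDiff W V m (m + 2) =
          (cycleRank W S 1 : ℤ) *
            ((cycleRank W S 1 : ℤ) ^ c * rankDiff W V m (m + 2)) := by ring
      _ ≤ (cycleRank W S 1 : ℤ) * rankDiff W (cmul S V c) (m + c) (m + c + 2) :=
          mul_le_mul_of_nonneg_left ih hρ'
      _ ≤ _ := h1

lemma betti_pow (hS : AllAlgebraic W S) (V : 𝒱.Obj) (c : ℕ) :
    betti W (cmul S V c) 2 ≤ c * cycleRank W S 1 + betti W V 2 := by
  induction c with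
  | zero => rw [zero_mul, zero_add]; exact le_rfl
  | succ c ih =>
    have h0 := (hS 0).2
    rw [mul_zero, zero_add] at h0
    have h1 := betti_two_prod h0 (cmul S V c)
    rw [betti_surf hS] at h1
    change betti W (S.prod (cmul S V c)) 2 ≤ _
    calc _ ≤ _ := h1
      _ ≤ cycleRank W S 1 + (c * cycleRank W S 1 + betti W V 2) := by omega
      _ = _ := by ring

/-- the inequality which bounds the second Betti numbers of the surfaces -/
lemma bound_poly {ρ M b c : ℕ} {δ : ℤ} (hδ : 1 ≤ δ) (h2 : b + 2 ≤ ρ)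
    (h : ((ρ : ℤ) - 1) ^ (c + 1) * δ ≤ M * (((c + 1) * ρ + b : ℕ) : ℤ) ^ c) :
    (ρ : ℤ) - 1 ≤ M * (2 * (c + 2)) ^ c := by
  have hρ : (2 : ℤ) ≤ ρ := by exact_mod_cast (by omega : 2 ≤ ρ)
  have h3 : (0 : ℤ) < (ρ : ℤ) - 1 := by omega
  have hb : (b : ℤ) + 2 ≤ ρ := by exact_mod_cast h2
  have h4 : (((c + 1) * ρ + b : ℕ) : ℤ) ≤ (2 * (c + 2)) * ((ρ : ℤ) - 1) := by
    push_cast
    nlinarith [Int.natCast_nonneg (n := c)]
  have h5 : (((c + 1) * ρ + b : ℕ) : ℤ) ^ c ≤ ((2 * (c + 2)) * ((ρ : ℤ) - 1)) ^ c :=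
    pow_le_pow_left₀ (Int.natCast_nonneg _) h4 c
  rw [mul_pow] at h5
  have h6 : ((ρ : ℤ) - 1) ^ (c + 1) ≤ ((ρ : ℤ) - 1) ^ (c + 1) * δ := by
    nlinarith [pow_pos h3 (c + 1)]
  have h7 : ((ρ : ℤ) - 1) ^ (c + 1) ≤ (M * (2 * (c + 2)) ^ c) * ((ρ : ℤ) - 1) ^ c := by
    calc _ ≤ _ := h6
      _ ≤ _ := h
      _ ≤ M * ((2 * (c + 2)) ^ c * ((ρ : ℤ) - 1) ^ c) :=
          mul_le_mul_of_nonneg_left h5 (Int.natCast_nonneg _)
      _ = _ := by ring
  rw [pow_succ'] at h7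
  exact le_of_mul_le_mul_right h7 (pow_pos h3 c)

/-- the surfaces: how to use them -/
lemma exists_surf (hsurf : HasManySurfaces W) (r : ℕ) : ∃ (S : 𝒱.Obj) (G : S.Cycles),
    S.dim = 2 ∧ S.IsCyc 1 G ∧ HardLefschetz W S G ∧ AllAlgebraic W S ∧ 1 ≤ cycleRank W S 1 ∧
      r ≤ cycleRank W S 1 := by
  obtain ⟨S, G, h1, h2, h3, h4, h5⟩ := hsurf (r + 1)
  exact ⟨S, G, h1, h2, h3, h4, by omega, by omega⟩

lemma same_of_poly_odd (hsurf : HasManySurfaces W)
    (hsec : ∀ X : 𝒱.Obj, 1 ≤ X.dim → HasSection W X) {m c : ℕ}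
    (hgap : PolyGap W (2 * (m + (c + 1)) + 1) (m + (c + 1)) (m + (c + 1) + 1) c) :
    SameRanks W (2 * m + 1) m (m + 1) := by
  intro V hV
  obtain ⟨M, hM⟩ := hgap
  obtain ⟨E, -, -, hE, hHL, -⟩ := hsec V (by omega)
  by_contra hne
  have h0 : 0 ≤ rankDiff W V m (m + 1) := by
    have := rk_le hE hHL (p := (m : ℤ)) (by omega)
    rw [show (V.dim : ℤ) - m = m + 1 by omega] at this
    simp only [rankDiff, rk] at this ⊢
    push_cast
    omega
  have hδ : 1 ≤ rankDiff W V m (m + 1) := by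
    rcases lt_or_eq_of_le h0 with h1 | h1
    · exact h1
    · exfalso
      apply hne
      simp only [rankDiff] at h1
      omega
  obtain ⟨S, G, hd, hG, hHS, hS, hρ1, hρ⟩ :=
    exists_surf hsurf (betti W V 2 + 2 + M * (2 * (c + 2)) ^ c)
  have h1 := odd_pow hS hd hρ1 hG hHS hE hHL hV (c + 1)
  have h2 := hM (cmul S V (c + 1)) (by rw [surf_dim hd, hV]; ring)
  have h3 := betti_pow hS V (c + 1)
  have h4 : (betti W (cmul S V (c + 1)) 2 : ℤ) ^ c ≤
      (((c + 1) * cycleRank W S 1 + betti W V 2 : ℕ) : ℤ) ^ c :=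
    pow_le_pow_left₀ (Int.natCast_nonneg _) (by exact_mod_cast h3) c
  have h5 := bound_poly (M := M) (c := c) hδ (by omega : betti W V 2 + 2 ≤ cycleRank W S 1)
    (h1.trans (h2.trans (mul_le_mul_of_nonneg_left h4 (Int.natCast_nonneg _))))
  have h6 : ((betti W V 2 + 2 + M * (2 * (c + 2)) ^ c : ℕ) : ℤ) ≤ cycleRank W S 1 := by
    exact_mod_cast hρ
  push_cast at h6
  have h7 := Int.natCast_nonneg (betti W V 2)
  linarith

lemma same_of_poly_even (hsurf : HasManySurfaces W)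
    (hsec : ∀ X : 𝒱.Obj, 1 ≤ X.dim → HasSection W X) {m c : ℕ}
    (hgap : PolyGap W (2 * (m + (c + 1)) + 2) (m + (c + 1)) (m + (c + 1) + 2) c) :
    SameRanks W (2 * m + 2) m (m + 2) := by
  intro V hV
  obtain ⟨M, hM⟩ := hgap
  obtain ⟨E, -, -, hE, hHL, -⟩ := hsec V (by omega)
  by_contra hne
  have h0 : 0 ≤ rankDiff W V m (m + 2) := by
    have := rk_le hE hHL (p := (m : ℤ)) (by omega)
    rw [show (V.dim : ℤ) - m = m + 2 by omega] at this
    simp only [rankDiff, rk] at this ⊢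
    push_cast
    omega
  have hδ : 1 ≤ rankDiff W V m (m + 2) := by
    rcases lt_or_eq_of_le h0 with h1 | h1
    · exact h1
    · exfalso
      apply hne
      simp only [rankDiff] at h1
      omega
  obtain ⟨S, G, hd, hG, hHS, hS, hρ1, hρ⟩ :=
    exists_surf hsurf (betti W V 2 + 2 + M * (2 * (c + 2)) ^ c)
  have h1 := even_pow hS hd hρ1 hG hHS hE hHL hV (c + 1)
  have h2 := hM (cmul S V (c + 1)) (by rw [surf_dim hd, hV]; ring)
  have h3 := betti_pow hS V (c + 1)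
  have h4 : (betti W (cmul S V (c + 1)) 2 : ℤ) ^ c ≤
      (((c + 1) * cycleRank W S 1 + betti W V 2 : ℕ) : ℤ) ^ c :=
    pow_le_pow_left₀ (Int.natCast_nonneg _) (by exact_mod_cast h3) c
  have hρ' : (1 : ℤ) ≤ cycleRank W S 1 := by exact_mod_cast hρ1
  have h1' : ((cycleRank W S 1 : ℤ) - 1) ^ (c + 1) * rankDiff W V m (m + 2) ≤
      rankDiff W (cmul S V (c + 1)) (m + (c + 1)) (m + (c + 1) + 2) := by
    refine le_trans (mul_le_mul_of_nonneg_right ?_ h0) h1
    exact pow_le_pow_left₀ (by omega) (by omega) _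
  have h5 := bound_poly (M := M) (c := c) hδ (by omega : betti W V 2 + 2 ≤ cycleRank W S 1)
    (h1'.trans (h2.trans (mul_le_mul_of_nonneg_left h4 (Int.natCast_nonneg _))))
  have h6 : ((betti W V 2 + 2 + M * (2 * (c + 2)) ^ c : ℕ) : ℤ) ≤ cycleRank W S 1 := by
    exact_mod_cast hρ
  push_cast at h6
  have h7 := Int.natCast_nonneg (betti W V 2)
  linarith

/-- the inequality which bounds the second Betti numbers of the surfaces -/
lemma bound_small {ρ M b : ℕ} {δ : ℤ} (hδ : 1 ≤ δ) (h1 : 1 ≤ ρ)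
    (h : ((b + 1 : ℕ) : ℤ) * (((ρ : ℤ) - 1) * δ) ≤ ((ρ + 2) * b : ℕ) + M) :
    (ρ : ℤ) ≤ 3 * b + 1 + M := by
  have hρ : (1 : ℤ) ≤ ρ := by exact_mod_cast h1
  push_cast at h
  have h2 : (ρ : ℤ) - 1 ≤ ((ρ : ℤ) - 1) * δ := by nlinarith
  have h3 : ((b : ℤ) + 1) * ((ρ : ℤ) - 1) ≤ ((b : ℤ) + 1) * (((ρ : ℤ) - 1) * δ) :=
    mul_le_mul_of_nonneg_left h2 (by positivity)
  nlinarith

lemma same_of_small_odd (hsurf : HasManySurfaces W)
    (hsec : ∀ X : 𝒱.Obj, 1 ≤ X.dim → HasSection W X) {m : ℕ}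
    (hgap : SmallGap W (2 * (m + 1) + 1) (m + 1) (m + 1 + 1)) :
    SameRanks W (2 * m + 1) m (m + 1) := by
  intro V hV
  obtain ⟨M, hM⟩ := hgap (totalBetti W V + 1)
  obtain ⟨E, -, -, hE, hHL, -⟩ := hsec V (by omega)
  by_contra hne
  have h0 : 0 ≤ rankDiff W V m (m + 1) := by
    have := rk_le hE hHL (p := (m : ℤ)) (by omega)
    rw [show (V.dim : ℤ) - m = m + 1 by omega] at this
    simp only [rankDiff, rk] at this ⊢
    push_cast
    omega
  have hδ : 1 ≤ rankDiff W V m (m + 1) := by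
    rcases lt_or_eq_of_le h0 with h1 | h1
    · exact h1
    · exfalso
      apply hne
      simp only [rankDiff] at h1
      omega
  obtain ⟨S, G, hd, hG, hHS, hS, hρ1, hρ⟩ := exists_surf hsurf (3 * totalBetti W V + 2 + M)
  have h1 := odd_step hS hd (one_ne_of_rank hρ1) hE hHL hV
  have h2 := hM (S.prod V) (by rw [dim_prod, hd, hV]; ring)
  rw [total_prod, total_surf hS hd (one_ne_of_rank hρ1)] at h2
  have h3 := bound_small (b := totalBetti W V) (M := M) hδ hρ1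
    (le_trans (mul_le_mul_of_nonneg_left h1 (Int.natCast_nonneg _)) h2)
  have h4 : ((3 * totalBetti W V + 2 + M : ℕ) : ℤ) ≤ cycleRank W S 1 := by exact_mod_cast hρ
  push_cast at h4
  linarith

lemma same_of_small_even (hsurf : HasManySurfaces W)
    (hsec : ∀ X : 𝒱.Obj, 1 ≤ X.dim → HasSection W X) {m : ℕ}
    (hgap : SmallGap W (2 * (m + 1) + 2) (m + 1) (m + 1 + 2)) :
    SameRanks W (2 * m + 2) m (m + 2) := by
  intro V hV
  obtain ⟨M, hM⟩ := hgap (totalBetti W V + 1)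
  obtain ⟨E, -, -, hE, hHL, -⟩ := hsec V (by omega)
  by_contra hne
  have h0 : 0 ≤ rankDiff W V m (m + 2) := by
    have := rk_le hE hHL (p := (m : ℤ)) (by omega)
    rw [show (V.dim : ℤ) - m = m + 2 by omega] at this
    simp only [rankDiff, rk] at this ⊢
    push_cast
    omega
  have hδ : 1 ≤ rankDiff W V m (m + 2) := by
    rcases lt_or_eq_of_le h0 with h1 | h1
    · exact h1
    · exfalso
      apply hne
      simp only [rankDiff] at h1
      omega
  obtain ⟨S, G, hd, hG, hHS, hS, hρ1, hρ⟩ := exists_surf hsurf (3 * totalBetti W V + 2 + M)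
  have h1 := even_step hS hd (one_ne_of_rank hρ1) hE hHL hV
  have h1' : ((cycleRank W S 1 : ℤ) - 1) * rankDiff W V m (m + 2) ≤
      rankDiff W (S.prod V) (m + 1) (m + 1 + 2) :=
    le_trans (mul_le_mul_of_nonneg_right (by omega) h0) h1
  have h2 := hM (S.prod V) (by rw [dim_prod, hd, hV]; ring)
  rw [total_prod, total_surf hS hd (one_ne_of_rank hρ1)] at h2
  have h3 := bound_small (b := totalBetti W V) (M := M) hδ hρ1
    (le_trans (mul_le_mul_of_nonneg_left h1' (Int.natCast_nonneg _)) h2)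
  have h4 : ((3 * totalBetti W V + 2 + M : ℕ) : ℤ) ≤ cycleRank W S 1 := by exact_mod_cast hρ
  push_cast at h4
  linarith

/-- From the equality of the ranks to the conjecture B in small dimensions. -/
lemma B_of_same_odd (hP : IsLine W P h) (hsec : ∀ X : 𝒱.Obj, 1 ≤ X.dim → HasSection W X) {m : ℕ}
    (hs : SameRanks W (2 * m + 1) m (m + 1)) (X : 𝒱.Obj) (D : X.Cycles) (hD : X.IsCyc 1 D)
    (hHL : HardLefschetz W X D) (hX : X.dim ≤ m + 1) : LefschetzB W X D := by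
  obtain ⟨r, hr⟩ := Nat.exists_eq_add_of_le hX
  refine lefschetzB_down hP (N := m + 1) (fun X D hD hHL hX => ?_) r X D hD hHL hr.symm
  obtain ⟨E, Y, i, hE, hHLE, hdim, hY, hWL⟩ := hsec X (by omega)
  have key := ((hyperplane_tfae hdim hE hY hHLE hWL).out 3 0).1
  have hr := hs (X.prod Y) (by rw [dim_prod]; omega)
  rw [show m = Y.dim by omega, ← hdim] at hr
  exact lefschetzB_indep hE hHLE hD hHL (key hr)

lemma B_of_same_even (hP : IsLine W P h) {m : ℕ}
    (hs : SameRanks W (2 * m + 2) m (m + 2)) (X : 𝒱.Obj) (D : X.Cycles) (hD : X.IsCyc 1 D)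
    (hHL : HardLefschetz W X D) (hX : X.dim ≤ m + 1) : LefschetzB W X D := by
  obtain ⟨r, hr⟩ := Nat.exists_eq_add_of_le hX
  refine lefschetzB_down hP (N := m + 1) (fun X D hD hHL hX => ?_) r X D hD hHL hr.symm
  refine lefschetzB_of_rank hD hHL ?_
  have hr := hs (X.prod X) (by rw [dim_prod]; omega)
  rw [show (X.dim : ℤ) - 1 = m by omega, show (X.dim : ℤ) + 1 = ((m + 2 : ℕ) : ℤ) by omega]
  exact hr

/-- **Polynomial bounds.** -/
theorem B_of_poly (hP : IsLine W P h) (hsurf : HasManySurfaces W)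
    (hsec : ∀ X : 𝒱.Obj, 1 ≤ X.dim → HasSection W X) {m c : ℕ}
    (hgap : PolyGap W (2 * m + 1) m (m + 1) c ∨ PolyGap W (2 * m + 2) m (m + 2) c)
    (X : 𝒱.Obj) (D : X.Cycles) (hD : X.IsCyc 1 D) (hHL : HardLefschetz W X D)
    (hX : X.dim + c ≤ m) : LefschetzB W X D := by
  rcases Nat.eq_zero_or_pos X.dim with h0 | hn
  · exact lefschetzB_zero hD hHL h0
  obtain ⟨n, rfl⟩ : ∃ n, m = n + (c + 1) := ⟨m - (c + 1), by omega⟩
  rcases hgap with h1 | h1
  · exact B_of_same_odd hP hsec (same_of_poly_odd hsurf hsec h1) X D hD hHL (by omega)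
  · exact B_of_same_even hP (same_of_poly_even hsurf hsec h1) X D hD hHL (by omega)

/-- **Sublinear bounds.** -/
theorem B_of_small (hP : IsLine W P h) (hsurf : HasManySurfaces W)
    (hsec : ∀ X : 𝒱.Obj, 1 ≤ X.dim → HasSection W X) {m : ℕ}
    (hgap : SmallGap W (2 * m + 1) m (m + 1) ∨ SmallGap W (2 * m + 2) m (m + 2))
    (X : 𝒱.Obj) (D : X.Cycles) (hD : X.IsCyc 1 D) (hHL : HardLefschetz W X D)
    (hX : X.dim ≤ m) : LefschetzB W X D := by
  rcases Nat.eq_zero_or_pos X.dim with h0 | hn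
  · exact lefschetzB_zero hD hHL h0
  obtain ⟨n, rfl⟩ : ∃ n, m = n + 1 := ⟨m - 1, by omega⟩
  rcases hgap with h1 | h1
  · exact B_of_same_odd hP hsec (same_of_small_odd hsurf hsec h1) X D hD hHL (by omega)
  · exact B_of_same_even hP (same_of_small_even hsurf hsec h1) X D hD hHL (by omega)

/-- **The conjecture A for all varieties and the growth of the ranks next to the middle.** -/
theorem main (hP : IsLine W P h) (hsurf : HasManySurfaces W)
    (hsec : ∀ X : 𝒱.Obj, 1 ≤ X.dim → HasSection W X) (T : Set ℕ) (κ : ℕ → ℕ)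
    (hT : ∀ n, ∃ m ∈ T, n + κ m ≤ m) :
    List.TFAE [
      ∀ (V : 𝒱.Obj) (E : V.Cycles), V.IsCyc 1 E → HardLefschetz W V E → LefschetzA W V E,
      ∀ m ∈ T, PolyGap W (2 * m + 1) m (m + 1) (κ m),
      ∀ m ∈ T, PolyGap W (2 * m + 2) m (m + 2) (κ m),
      ∀ m ∈ T, SmallGap W (2 * m + 1) m (m + 1),
      ∀ m ∈ T, SmallGap W (2 * m + 2) m (m + 2),
      ∀ (V : 𝒱.Obj) (E : V.Cycles), V.IsCyc 1 E → HardLefschetz W V E → LefschetzB W V E] := by
  have hsame : (∀ (V : 𝒱.Obj) (E : V.Cycles), V.IsCyc 1 E → HardLefschetz W V E →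
      LefschetzA W V E) → ∀ d p q, p + q = d → SameRanks W d p q :=
    ((ranks_tfae W hP hsec Set.infinite_univ).out 0 1).1
  have hz : ∀ {n p q : ℕ}, SameRanks W n p q → ∀ V : 𝒱.Obj, V.dim = n →
      rankDiff W V p q = 0 := by
    intro n p q hs V hV
    rw [rankDiff, hs V hV, sub_self]
  have hpoly : ∀ {n p q : ℕ} (c : ℕ), SameRanks W n p q → PolyGap W n p q c := by
    intro n p q c hs
    refine ⟨0, fun V hV => ?_⟩
    rw [hz hs V hV, Nat.cast_zero, zero_mul]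
  have hsmall : ∀ {n p q : ℕ}, SameRanks W n p q → SmallGap W n p q := by
    intro n p q hs N
    refine ⟨0, fun V hV => ?_⟩
    rw [hz hs V hV, mul_zero]
    positivity
  tfae_have 1 → 2 := fun h m _ => hpoly _ (hsame h _ _ _ (by omega))
  tfae_have 1 → 3 := fun h m _ => hpoly _ (hsame h _ _ _ (by omega))
  tfae_have 1 → 4 := fun h m _ => hsmall (hsame h _ _ _ (by omega))
  tfae_have 1 → 5 := fun h m _ => hsmall (hsame h _ _ _ (by omega))
  tfae_have 2 → 6 := by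
    intro h V E hE hV
    obtain ⟨m, hm, hle⟩ := hT V.dim
    exact B_of_poly hP hsurf hsec (Or.inl (h m hm)) V E hE hV hle
  tfae_have 3 → 6 := by
    intro h V E hE hV
    obtain ⟨m, hm, hle⟩ := hT V.dim
    exact B_of_poly hP hsurf hsec (Or.inr (h m hm)) V E hE hV hle
  tfae_have 4 → 6 := by
    intro h V E hE hV
    obtain ⟨m, hm, hle⟩ := hT V.dim
    exact B_of_small hP hsurf hsec (Or.inl (h m hm)) V E hE hV (by omega)
  tfae_have 5 → 6 := by
    intro h V E hE hV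
    obtain ⟨m, hm, hle⟩ := hT V.dim
    exact B_of_small hP hsurf hsec (Or.inr (h m hm)) V E hE hV (by omega)
  tfae_have 6 → 1 := fun h V E hE hV => lefschetzA_of_B hE hV (h V E hE hV)
  tfae_finish

end Pool.Agent.N190.Amp
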